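import Pool.Agent.helper3.AP.SpecG

/-!
# AP (MP_16912e_nt), row GBF: the basic tuples are finite in number
-/

set_option autoImplicit false

namespace Pool.Agent.AP

open Finset NumberField Pool.Agent.helper3.FT Pool.Agent.helper47.RA Pool.Agent.T5

theorem GBF (hGTB : GTB_stmt) : BF_stmt := by
  intro p N Y hN
  set B : ℕ := ⌊Y⌋₊ with hB
  set T : ℕ := 4 * B ^ (p + 1) with hT
  set M : ℕ := ⌈2 * (T : ℝ) / N⌉₊ with hM
  refine Set.Finite.subset (Finset.finite_toSet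
    (range (B + 1) ×ˢ (range (B + 1) ×ˢ (range (M + 1) ×ˢ Finset.Icc (-(T : ℤ)) T)))) ?_
  rintro ⟨r, z, y, x⟩ ht
  have hb : Bas p N Y (r, z, y, x) := ht
  have hTK := hGTB.1 p N Y _ hb
  have hr1 : 1 ≤ r := Nat.one_le_iff_ne_zero.2 hb.r1.ne_zero
  have hz1 : 1 ≤ z := hb.z1
  have hY2 : (r : ℝ) * z ≤ Y := hb.Y2
  have hrz : r * z ≤ B := by
    rw [hB]
    refine Nat.le_floor ?_
    push_cast
    exact hY2
  have hr : r ≤ B := (Nat.le_mul_of_pos_right r hz1).trans hrz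
  have hz : z ≤ B := (Nat.le_mul_of_pos_left z hr1).trans hrz
  have hrzp : 4 * r * z ^ p ≤ T := by
    rw [hT, pow_succ']
    calc 4 * r * z ^ p ≤ 4 * B * B ^ p := Nat.mul_le_mul (Nat.mul_le_mul_left 4 hr) (Nat.pow_le_pow_left hz p)
      _ = 4 * (B * B ^ p) := by ring
  have heq := hTK.eq
  simp only at heq
  have hN1 : N / 2 < -(dp p (r, z, y, x) : ℝ) := hb.N1
  generalize dp p (r, z, y, x) = D at heq hN1
  have hD0 : (D : ℝ) < 0 := by linarith [half_pos hN]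
  have hD0' : D < 0 := by exact_mod_cast hD0
  have hrzp' : 4 * (r : ℤ) * (z : ℤ) ^ p ≤ (T : ℤ) := by exact_mod_cast hrzp
  have hx2 : x ^ 2 ≤ (T : ℤ) := by
    have h1 : 0 ≤ -D * (y : ℤ) ^ 2 := mul_nonneg (by omega) (sq_nonneg _)
    linarith
  have hy2 : N / 2 * (y : ℝ) ^ 2 ≤ (T : ℝ) := by
    have h1 : (0 : ℝ) ≤ (x : ℝ) ^ 2 := sq_nonneg _
    have h2 : (x : ℝ) ^ 2 - D * (y : ℝ) ^ 2 = 4 * (r : ℝ) * (z : ℝ) ^ p := by exact_mod_cast heq
    have h3 : 4 * (r : ℝ) * (z : ℝ) ^ p ≤ (T : ℝ) := by exact_mod_cast hrzp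
    have h4 : N / 2 * (y : ℝ) ^ 2 ≤ -D * (y : ℝ) ^ 2 := mul_le_mul_of_nonneg_right hN1.le (sq_nonneg _)
    linarith
  have hy : y ≤ M := by
    rw [hM]
    have h1 : (y : ℝ) ≤ 2 * (T : ℝ) / N := by
      rw [le_div_iff₀ hN]
      have h2 : (y : ℝ) ≤ (y : ℝ) ^ 2 := by
        have : (1 : ℝ) ≤ y := by exact_mod_cast hb.y1
        nlinarith
      have h3 := mul_le_mul_of_nonneg_left h2 hN.le
      linarith
    exact_mod_cast h1.trans (Nat.le_ceil _)
  have hxT : -(T : ℤ) ≤ x ∧ x ≤ T := by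
    have h1 : |x| ≤ x ^ 2 := by
      rw [← sq_abs]
      rcases eq_or_ne x 0 with h0 | h0
      · rw [h0]; simp
      · have : 1 ≤ |x| := Int.one_le_abs h0
        nlinarith
    exact abs_le.1 (h1.trans hx2)
  simp only [Finset.coe_product, Set.mem_prod, Finset.mem_coe, Finset.mem_range, Finset.mem_Icc]
  exact ⟨by omega, by omega, by omega, hxT⟩

end Pool.Agent.AP
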