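import Pool.Agent.helper3.AP.SpecG

/-!
# AP (MP_16912e_nt), row GPR: the sum over the principal ideals
-/

set_option autoImplicit false

namespace Pool.Agent.AP

open Finset NumberField Pool.Agent.helper3.FT Pool.Agent.helper47.RA Pool.Agent.T5

open Classical in
theorem GPR_one (hGPA : GPA_stmt) {N Y : ℝ} (hN : 1 ≤ N) (hY : 2 ≤ Y) {D : ℤ} (hD : D ∈ DN N) :
    (cPr D Y : ℝ) ≤ 2 * √(8 * Y / N) * (4 * √Y + 1) := by
  unfold DN at hD
  obtain ⟨hD1, -, hD2⟩ := Finset.mem_filter.1 hD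
  have hneg : D < 0 := by
    have := (Finset.mem_Icc.1 hD1).2
    omega
  unfold cPr
  split_ifs with h
  · have hQ : h.some.Q.D = D := h.some.hD
    let _ := h.some.fd
    let _ := h.some.nf
    exact (hGPA h.some.K h.some.Q N Y hN hY (by rw [hQ]; exact hD2) (by rw [hQ]; exact hneg)).2
  · rw [Nat.cast_zero]
    positivity

open Classical in
theorem GPR (hGPA : GPA_stmt) : PR_stmt := by
  refine ⟨50, by norm_num, fun N Y hN hY => ?_⟩
  have hN0 : 0 < N := by linarith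
  have hY0 : 0 < Y := by linarith
  have hc : ((DN N).card : ℝ) ≤ N := by
    have h1 : (DN N).card ≤ (Finset.Icc (-⌊N⌋) (-1)).card := Finset.card_filter_le _ _
    rw [Int.card_Icc] at h1
    have h2 : (0 : ℤ) ≤ ⌊N⌋ := Int.floor_nonneg.2 hN0.le
    have h3 : (((-1 + 1 - -⌊N⌋).toNat : ℕ) : ℤ) = ⌊N⌋ := by
      rw [Int.toNat_of_nonneg (by omega)]; ring
    have h4 : (((-1 + 1 - -⌊N⌋).toNat : ℕ) : ℝ) = ((⌊N⌋ : ℤ) : ℝ) := by
      have h5 : ((((-1 + 1 - -⌊N⌋).toNat : ℕ) : ℤ) : ℝ) = ((⌊N⌋ : ℤ) : ℝ) := congrArg _ h3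
      rw [← h5, Int.cast_natCast]
    calc ((DN N).card : ℝ) ≤ (((-1 + 1 - -⌊N⌋).toNat : ℕ) : ℝ) := by exact_mod_cast h1
      _ = ((⌊N⌋ : ℤ) : ℝ) := h4
      _ ≤ N := Int.floor_le N
  have h1 : PA N Y ≤ N * (2 * √(8 * Y / N) * (4 * √Y + 1)) := by
    unfold PA
    calc ∑ D ∈ DN N, (cPr D Y : ℝ) ≤ ∑ _D ∈ DN N, 2 * √(8 * Y / N) * (4 * √Y + 1) :=
          Finset.sum_le_sum fun D hD => GPR_one hGPA hN hY hD
      _ = ((DN N).card : ℝ) * (2 * √(8 * Y / N) * (4 * √Y + 1)) := by rw [Finset.sum_const, nsmul_eq_mul]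
      _ ≤ _ := mul_le_mul_of_nonneg_right hc (by positivity)
  refine h1.trans ?_
  have hsN : 0 < √N := Real.sqrt_pos.2 hN0
  have hsY : 0 < √Y := Real.sqrt_pos.2 hY0
  have e1 : √(8 * Y / N) ≤ 3 * √Y / √N := by
    rw [Real.sqrt_div (by positivity)]
    refine div_le_div_of_nonneg_right ?_ hsN.le
    rw [show (3 : ℝ) * √Y = √(9 * Y) by
      rw [Real.sqrt_mul (by norm_num), show (9 : ℝ) = 3 ^ 2 by norm_num, Real.sqrt_sq (by norm_num)]]
    exact Real.sqrt_le_sqrt (by linarith)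
  have e2 : √N * √N = N := Real.mul_self_sqrt hN0.le
  have e3 : √Y * √Y = Y := Real.mul_self_sqrt hY0.le
  have e4 : √Y ≤ Y := by
    have : 1 ≤ √Y := Real.one_le_sqrt.2 (by linarith)
    nlinarith
  calc N * (2 * √(8 * Y / N) * (4 * √Y + 1)) ≤ N * (2 * (3 * √Y / √N) * (4 * √Y + 1)) := by gcongr
    _ = (√N * √N) * (2 * (3 * √Y / √N) * (4 * √Y + 1)) := by rw [e2]
    _ = 6 * √N * (4 * (√Y * √Y) + √Y) := by field_simp; ring
    _ ≤ 6 * √N * (4 * Y + Y) := by rw [e3]; gcongr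
    _ = 30 * (Y * √N) := by ring
    _ ≤ 50 * (Y * √N) := by
        have : 0 < Y * √N := mul_pos hY0 hsN
        linarith

end Pool.Agent.AP
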